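import Pool.Agent.Work.MP_fe875b_lc.SY.GDefs
import Pool.Agent.Work.MP_fe875b_lc.SY.WfaC

/-!
The work function algorithm for `k` servers is `k`-competitive on every metric space.
-/

set_option autoImplicit false

namespace Pool.Agent.Results.MP_fe875b_lc.WorkFunctionAlgorithm

open Pool.Agent.KServer

private theorem offCost_eq' {M : Type} [MetricSpace M] {k : ℕ} (c₀ : Fin k → M) (σ : List M)
    (X : Fin k → M) : Gen.offCost c₀ σ X = Pool.Agent.KServer.offCost dist c₀ σ X := by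
  unfold Gen.offCost Pool.Agent.KServer.offCost
  congr 1
  ext c
  constructor
  · rintro ⟨S, h0, h1, ⟨π, h2⟩, h3⟩
    exact ⟨S, ⟨h0, h1⟩, ⟨π, funext h2⟩, h3⟩
  · rintro ⟨S, ⟨h0, h1⟩, ⟨π, h2⟩, h3⟩
    exact ⟨S, h0, h1, ⟨π, fun i => congrFun h2 i⟩, h3⟩

private theorem isWFA_iff {M : Type} [MetricSpace M] {k : ℕ} (c₀ : Fin k → M)
    (C : List M → Fin k → M) :
    Gen.IsWFA c₀ C ↔ Pool.Agent.KServer.IsWFA dist c₀ C := by
  unfold Gen.IsWFA Pool.Agent.KServer.IsWFA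
  simp only [offCost_eq']

theorem result :
    ∀ (M : Type) [MetricSpace M] (k : ℕ), 0 < k → ∀ c₀ : Fin k → M,
      (∃ C : List M → (Fin k → M), Gen.IsWFA c₀ C) ∧
      ∀ C : List M → (Fin k → M), Gen.IsWFA c₀ C →
        C [] = c₀ ∧
        (∀ (l : List M) (r : M), ∃ i : Fin k, C (l ++ [r]) i = r) ∧
        ∀ (σ : List M) (S : ℕ → Fin k → M),
          S 0 = c₀ →
          (∀ j : Fin σ.length, ∃ i : Fin k, S (j.val + 1) i = σ.get j) →
          (∑ j ∈ Finset.range σ.length, ∑ i : Fin k,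
              dist (C (σ.take j) i) (C (σ.take (j + 1)) i))
            ≤ (k : ℝ) * (∑ j ∈ Finset.range σ.length, ∑ i : Fin k,
              dist (S j i) (S (j + 1) i)) + (∑ i : Fin k, ∑ j : Fin k, dist (c₀ i) (c₀ j)) / 2 := by
  intro M _ k hk c₀
  obtain ⟨⟨C, hC⟩, h⟩ := wfa_competitive M k hk c₀
  refine ⟨⟨C, (isWFA_iff c₀ C).2 hC⟩, fun C hC => ?_⟩
  obtain ⟨h1, h2⟩ := h C ((isWFA_iff c₀ C).1 hC)
  exact ⟨h1.1, h1.2, fun σ S h0 hS => h2 σ S ⟨h0, hS⟩⟩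

end Pool.Agent.Results.MP_fe875b_lc.WorkFunctionAlgorithm
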